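import Pool.Agent.TH610.CSP.Stm

/-!
# CSP-4 RED: reduction of the size of the block
-/

set_option autoImplicit false

open Matrix

namespace Pool.Agent.TH610.CSP.H674

open Pool.Agent.TH610.CSP

/-! ## Arithmetic -/

/-- Bezout for a finite family. -/
theorem bez {ι : Type} [DecidableEq ι] (T : Finset ι) (b : ι → ℤ) :
    ∃ (h : ℤ) (x : ι → ℤ), h = ∑ j ∈ T, b j * x j ∧ ∀ j ∈ T, h ∣ b j := by
  induction T using Finset.induction_on with
  | empty => exact ⟨0, fun _ => 0, by simp, by simp⟩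
  | insert i T hi ih =>
    obtain ⟨h, x, hx, hd⟩ := ih
    refine ⟨(Int.gcd (b i) h : ℤ),
      fun j => if j = i then Int.gcdA (b i) h else x j * Int.gcdB (b i) h, ?_, ?_⟩
    · dsimp only
      rw [Finset.sum_insert hi, if_pos rfl, Int.gcd_eq_gcd_ab]
      congr 1
      rw [hx, Finset.sum_mul]
      refine Finset.sum_congr rfl (fun j hj => ?_)
      have : j ≠ i := fun e => hi (e ▸ hj)
      rw [if_neg this, ← hx]
      ring
    · intro j hj
      rcases Finset.mem_insert.1 hj with rfl | hj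
      · exact Int.gcd_dvd_left _ _
      · exact (Int.gcd_dvd_right _ _).trans (hd j hj)

/-- `a + t r` can be made coprime to `h`. -/
theorem exists_t (a r h : ℤ) (hh : h ≠ 0) (x y z : ℤ) (e : a * x + r * y + h * z = 1) :
    ∃ t : ℤ, IsCoprime (a + r * t) h := by
  classical
  set F := h.natAbs.primeFactors.filter (fun p => ¬ ((p : ℕ) : ℤ) ∣ a) with hF
  refine ⟨∏ p ∈ F, ((p : ℕ) : ℤ), ?_⟩
  set t : ℤ := ∏ p ∈ F, ((p : ℕ) : ℤ) with ht
  rw [Int.isCoprime_iff_gcd_eq_one]
  by_contra hne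
  obtain ⟨p, hp, hpd⟩ := Nat.exists_prime_and_dvd hne
  have h1 : (p : ℤ) ∣ a + r * t := (Int.natCast_dvd_natCast.2 hpd).trans (Int.gcd_dvd_left _ _)
  have h2 : (p : ℤ) ∣ h := (Int.natCast_dvd_natCast.2 hpd).trans (Int.gcd_dvd_right _ _)
  have hpp : Prime (p : ℤ) := Nat.prime_iff_prime_int.1 hp
  by_cases ha : (p : ℤ) ∣ a
  · have h3 : (p : ℤ) ∣ r * t := (dvd_add_right ha).1 h1
    rcases hpp.dvd_or_dvd h3 with h4 | h4
    · have : (p : ℤ) ∣ 1 := by
        rw [← e]
        exact dvd_add (dvd_add (ha.mul_right _) (h4.mul_right _)) (h2.mul_right _)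
      exact hpp.not_isUnit (isUnit_of_dvd_one this)
    · rw [ht] at h4
      obtain ⟨q, hq, hpq⟩ := (hpp.dvd_finsetProd_iff _).1 h4
      rw [hF, Finset.mem_filter] at hq
      have hq2 : q.Prime := Nat.prime_of_mem_primeFactors hq.1
      have : p = q := (Nat.prime_dvd_prime_iff_eq hp hq2).1 (Int.natCast_dvd_natCast.1 hpq)
      exact hq.2 (this ▸ ha)
  · have hpF : p ∈ F := by
      rw [hF, Finset.mem_filter]
      refine ⟨?_, ha⟩
      rw [Nat.mem_primeFactors]
      exact ⟨hp, Int.natCast_dvd.1 h2, Int.natAbs_ne_zero.2 hh⟩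
    have h3 : (p : ℤ) ∣ t := Finset.dvd_prod_of_mem _ hpF
    exact ha ((dvd_add_left (h3.mul_left _)).1 h1)

theorem gcd_row {ι : Type} [DecidableEq ι] (S : Finset ι) (i0 i1 : ι) (h0 : i0 ∈ S) (h1 : i1 ∈ S)
    (h01 : i1 ≠ i0) (b : ι → ℤ) (r : ℤ) (c : ι → ℤ) (c0 : ℤ)
    (e : ∑ j ∈ S, b j * c j + r * c0 = 1) :
    ∃ w s : ι → ℤ, ∑ j ∈ S, (b j + r * w j) * s j = 1 := by
  obtain ⟨h, x, hx, hd⟩ := bez (S.erase i0) b
  have hy : ∃ y, ∑ j ∈ S.erase i0, b j * c j = h * y :=
    Finset.dvd_sum (fun j hj => (hd j hj).mul_right _)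
  obtain ⟨y, hy⟩ := hy
  have e1 : b i0 * c i0 + r * c0 + h * y = 1 := by
    rw [← Finset.add_sum_erase S _ h0] at e
    rw [← hy]
    linarith
  by_cases hh : h = 0
  · refine ⟨fun j => if j = i1 then 1 else 0,
      fun j => if j = i0 then c i0 else if j = i1 then c0 else 0, ?_⟩
    have h1' : i1 ∈ S.erase i0 := Finset.mem_erase.2 ⟨h01, h1⟩
    rw [← Finset.add_sum_erase S _ h0, ← Finset.add_sum_erase (S.erase i0) _ h1',
      Finset.sum_eq_zero]
    · have hb1 : b i1 = 0 := by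
        have := hd i1 h1'
        rw [hh] at this
        exact zero_dvd_iff.1 this
      simp only [if_neg h01, if_neg h01.symm, if_true, hb1]
      rw [hh] at e1
      linarith
    · intro j hj
      rw [Finset.mem_erase, Finset.mem_erase] at hj
      dsimp only
      rw [if_neg hj.1, if_neg hj.2.1, if_neg hj.1, mul_zero]
  · obtain ⟨t, u, v, huv⟩ := exists_t (b i0) r h hh _ _ _ e1
    refine ⟨fun j => if j = i0 then t else 0, fun j => if j = i0 then u else x j * v, ?_⟩
    rw [← Finset.add_sum_erase S _ h0]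
    have : ∑ j ∈ S.erase i0, (b j + r * (if j = i0 then t else 0)) *
        (if j = i0 then u else x j * v) = v * h := by
      rw [hx, Finset.mul_sum]
      refine Finset.sum_congr rfl (fun j hj => ?_)
      rw [if_neg (Finset.ne_of_mem_erase hj), if_neg (Finset.ne_of_mem_erase hj)]
      ring
    rw [this]
    dsimp only
    rw [if_pos rfl, if_pos rfl]
    linarith

/-! ## Matrices -/

variable {n : ℕ}

theorem mul_ap (A B : SLn n) (p q : Fin n) : (A * B).1 p q = ∑ l, A.1 p l * B.1 l q := by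
  change (A.1 * B.1) p q = _
  rw [Matrix.mul_apply]

theorem tv_ap {i j : Fin n} (h : i ≠ j) (b : ℤ) (p q : Fin n) :
    (SpecialLinearGroup.transvection h b : SLn n).1 p q =
      (1 : Matrix (Fin n) (Fin n) ℤ) p q + if p = i ∧ q = j then b else 0 := by
  change (Matrix.transvection i j b) p q = _
  rw [Matrix.transvection, Matrix.add_apply, Matrix.single_apply]
  congr 1
  refine if_congr ?_ rfl rfl
  constructor
  · rintro ⟨rfl, rfl⟩; exact ⟨rfl, rfl⟩
  · rintro ⟨rfl, rfl⟩; exact ⟨rfl, rfl⟩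

theorem sum_one (f : Fin n → ℤ) (q : Fin n) :
    ∑ l, f l * (1 : Matrix (Fin n) (Fin n) ℤ) l q = f q := by
  rw [Finset.sum_eq_single q]
  · simp
  · intro l _ hl
    rw [Matrix.one_apply_ne hl, mul_zero]
  · intro h
    exact absurd (Finset.mem_univ q) h

theorem one_sum (f : Fin n → ℤ) (p : Fin n) :
    ∑ l, (1 : Matrix (Fin n) (Fin n) ℤ) p l * f l = f p := by
  rw [Finset.sum_eq_single p]
  · simp
  · intro l _ hl
    rw [Matrix.one_apply_ne hl.symm, zero_mul]
  · intro h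
    exact absurd (Finset.mem_univ p) h

theorem mul_tv (B : SLn n) {i j : Fin n} (h : i ≠ j) (b : ℤ) (p q : Fin n) :
    (B * SpecialLinearGroup.transvection h b).1 p q =
      B.1 p q + if q = j then B.1 p i * b else 0 := by
  rw [mul_ap]
  simp_rw [tv_ap, mul_add]
  rw [Finset.sum_add_distrib, sum_one]
  congr 1
  rw [Finset.sum_eq_single i]
  · simp
  · intro l _ hl
    rw [if_neg (fun h => hl h.1), mul_zero]
  · intro h
    exact absurd (Finset.mem_univ i) h

/-- `E` is the identity plus the column `a` (on `S`) in position `K`. -/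
def IsU (K : Fin n) (S : Finset (Fin n)) (a : Fin n → ℤ) (E : SLn n) : Prop :=
  ∀ p q, E.1 p q = (1 : Matrix (Fin n) (Fin n) ℤ) p q + if q = K ∧ p ∈ S then a p else 0

/-- `E` is the identity plus the row `a` (on `S`) in position `K`. -/
def IsL (K : Fin n) (S : Finset (Fin n)) (a : Fin n → ℤ) (E : SLn n) : Prop :=
  ∀ p q, E.1 p q = (1 : Matrix (Fin n) (Fin n) ℤ) p q + if p = K ∧ q ∈ S then a q else 0

theorem tv_mem {m : ℤ} {i j : Fin n} (h : i ≠ j) (b : ℤ) (hb : m ∣ b) :
    SpecialLinearGroup.transvection h b ∈ EE n m := by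
  obtain ⟨t, rfl⟩ := hb
  exact Subgroup.subset_closure ⟨i, j, h, t, rfl⟩

theorem exU (m : ℤ) (K : Fin n) (S : Finset (Fin n)) (hK : K ∉ S) (a : Fin n → ℤ)
    (ha : ∀ i ∈ S, m ∣ a i) : ∃ E ∈ EE n m, IsU K S a E := by
  induction S using Finset.induction_on with
  | empty => exact ⟨1, Subgroup.one_mem _, fun p q => by simp⟩
  | insert i S hi ih =>
    obtain ⟨E, hE, hU⟩ := ih (fun h => hK (Finset.mem_insert_of_mem h))
      (fun j hj => ha j (Finset.mem_insert_of_mem hj))
    have hiK : i ≠ K := fun e => hK (e ▸ Finset.mem_insert_self _ _)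
    refine ⟨E * SpecialLinearGroup.transvection hiK (a i),
      Subgroup.mul_mem _ hE (tv_mem _ _ (ha i (Finset.mem_insert_self _ _))), fun p q => ?_⟩
    have e1 : E.1 p i = (1 : Matrix (Fin n) (Fin n) ℤ) p i := by
      rw [hU p i, if_neg (fun h => hiK h.1), add_zero]
    rw [mul_tv, e1, hU p q]
    by_cases hq : q = K
    · by_cases hp : p = i
      · subst hp
        simp [hq, hi]
      · simp [hq, hp, Matrix.one_apply]
    · simp [hq]

theorem exL (m : ℤ) (K : Fin n) (S : Finset (Fin n)) (hK : K ∉ S) (a : Fin n → ℤ)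
    (ha : ∀ i ∈ S, m ∣ a i) : ∃ E ∈ EE n m, IsL K S a E := by
  induction S using Finset.induction_on with
  | empty => exact ⟨1, Subgroup.one_mem _, fun p q => by simp⟩
  | insert i S hi ih =>
    obtain ⟨E, hE, hU⟩ := ih (fun h => hK (Finset.mem_insert_of_mem h))
      (fun j hj => ha j (Finset.mem_insert_of_mem hj))
    have hiK : K ≠ i := fun e => hK (e ▸ Finset.mem_insert_self _ _)
    refine ⟨E * SpecialLinearGroup.transvection hiK (a i),
      Subgroup.mul_mem _ hE (tv_mem _ _ (ha i (Finset.mem_insert_self _ _))), fun p q => ?_⟩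
    have hKS : K ∉ S := fun h => hK (Finset.mem_insert_of_mem h)
    have e1 : E.1 p K = (1 : Matrix (Fin n) (Fin n) ℤ) p K := by
      rw [hU p K, if_neg (fun h => hKS h.2), add_zero]
    rw [mul_tv, e1, hU p q]
    by_cases hp : p = K
    · by_cases hq : q = i
      · subst hq
        simp [hp, hi, Matrix.one_apply]
      · simp [hp, hq]
    · simp [hp, Matrix.one_apply]

theorem mulU {K : Fin n} {S : Finset (Fin n)} {a : Fin n → ℤ} {E : SLn n} (hE : IsU K S a E)
    (B : SLn n) (p q : Fin n) :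
    (B * E).1 p q = B.1 p q + if q = K then ∑ l ∈ S, B.1 p l * a l else 0 := by
  rw [mul_ap]
  simp_rw [hE _ _, mul_add]
  rw [Finset.sum_add_distrib, sum_one]
  congr 1
  by_cases hq : q = K
  · simp only [hq, true_and, if_true]
    rw [← Finset.sum_filter_add_sum_filter_not Finset.univ (fun l => l ∈ S)]
    rw [Finset.sum_congr (s₂ := S) (g := fun l => B.1 p l * a l) (by ext; simp)
      (fun l hl => by rw [if_pos hl])]
    rw [Finset.sum_eq_zero (s := Finset.univ.filter (fun l => ¬ l ∈ S)), add_zero]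
    intro l hl
    rw [if_neg (Finset.mem_filter.1 hl).2, mul_zero]
  · simp [hq]

theorem mulL {K : Fin n} {S : Finset (Fin n)} {a : Fin n → ℤ} {E : SLn n} (hE : IsL K S a E)
    (B : SLn n) (p q : Fin n) :
    (B * E).1 p q = B.1 p q + if q ∈ S then B.1 p K * a q else 0 := by
  rw [mul_ap]
  simp_rw [hE _ _, mul_add]
  rw [Finset.sum_add_distrib, sum_one]
  congr 1
  rw [Finset.sum_eq_single K]
  · by_cases hq : q ∈ S <;> simp [hq]
  · intro l _ hl
    rw [if_neg (fun h => hl h.1), mul_zero]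
  · intro h
    exact absurd (Finset.mem_univ K) h

theorem Umul {K : Fin n} {S : Finset (Fin n)} {a : Fin n → ℤ} {E : SLn n} (hE : IsU K S a E)
    (B : SLn n) (p q : Fin n) :
    (E * B).1 p q = B.1 p q + if p ∈ S then a p * B.1 K q else 0 := by
  rw [mul_ap]
  simp_rw [hE _ _, add_mul]
  rw [Finset.sum_add_distrib, one_sum (fun l => B.1 l q)]
  congr 1
  rw [Finset.sum_eq_single K]
  · by_cases hq : p ∈ S <;> simp [hq]
  · intro l _ hl
    rw [if_neg (fun h => hl h.1), zero_mul]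
  · intro h
    exact absurd (Finset.mem_univ K) h

/-- reduction of the size of the block -/
theorem t_red : StRed := by
  classical
  intro n k m hk hkn hm A hB hC
  obtain ⟨K, hKv⟩ : ∃ K : Fin n, (K : ℕ) = k := ⟨⟨k, by omega⟩, rfl⟩
  obtain ⟨i0, hi0⟩ : ∃ i : Fin n, (i : ℕ) = 0 := ⟨⟨0, by omega⟩, rfl⟩
  obtain ⟨i1, hi1⟩ : ∃ i : Fin n, (i : ℕ) = 1 := ⟨⟨1, by omega⟩, rfl⟩
  obtain ⟨S, hS⟩ : ∃ S : Finset (Fin n), S = Finset.univ.filter (fun j : Fin n => (j : ℕ) < k) :=
    ⟨_, rfl⟩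
  have memS : ∀ j : Fin n, j ∈ S ↔ (j : ℕ) < k := by intro j; simp [hS]
  have hKS : K ∉ S := by rw [memS]; omega
  have hne : ∀ j ∈ S, K ≠ j := fun j hj e => hKS (e ▸ hj)
  have hmm : m ∣ m ^ 2 := dvd_pow_self m two_ne_zero
  have hbig : ∀ j : Fin n, j ∉ S → j ≠ K → k + 1 ≤ (j : ℕ) := by
    intro j hj hjK
    rw [memS] at hj
    have : (j : ℕ) ≠ k := fun e => hjK (Fin.ext (by rw [e, hKv]))
    omega
  have hbS : ∀ j : Fin n, k + 1 ≤ (j : ℕ) → j ∉ S := by
    intro j hj
    rw [memS]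
    omega
  have hbK : ∀ j : Fin n, k + 1 ≤ (j : ℕ) → j ≠ K := by
    intro j hj e
    rw [e, hKv] at hj
    omega
  -- the row
  have hrow : ∀ j, ∃ b : ℤ, j ∈ S → A.1 K j = m * b := by
    intro j
    by_cases hj : j ∈ S
    · have h1 := hC K j
      rw [Matrix.one_apply_ne (hne j hj), sub_zero] at h1
      obtain ⟨b, hb⟩ := hmm.trans h1
      exact ⟨b, fun _ => hb⟩
    · exact ⟨0, fun h => absurd h hj⟩
  choose b hb using hrow
  obtain ⟨z, hz⟩ : m ^ 2 ∣ A.1 K K - 1 := by
    have := hC K K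
    rwa [Matrix.one_apply_eq] at this
  have huni : ∑ j ∈ S, b j * (m * (A⁻¹ : SLn n).1 j K) + A.1 K K * (A⁻¹ : SLn n).1 K K = 1 := by
    have h1 : (A * A⁻¹).1 K K = 1 := by
      rw [mul_inv_cancel]
      change (1 : Matrix (Fin n) (Fin n) ℤ) K K = 1
      rw [Matrix.one_apply_eq]
    rw [mul_ap, ← Finset.sum_filter_add_sum_filter_not Finset.univ (fun j : Fin n => (j : ℕ) < k),
      ← hS] at h1
    refine Eq.trans ?_ h1
    congr 1
    · refine Finset.sum_congr rfl (fun j hj => ?_)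
      rw [hb j hj]
      ring
    · symm
      apply Finset.sum_eq_single K
      · intro j hj hjK
        have h2 : j ∉ S := by
          rw [memS]
          exact (Finset.mem_filter.1 hj).2
        rw [hB K j (Or.inr (hbig j h2 hjK)), Matrix.one_apply_ne hjK.symm, zero_mul]
      · intro h
        exfalso
        apply h
        rw [Finset.mem_filter]
        exact ⟨Finset.mem_univ _, by omega⟩
  obtain ⟨w, s, hws⟩ := gcd_row S i0 i1 ((memS _).2 (by omega)) ((memS _).2 (by omega))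
    (fun e => by rw [e] at hi1; omega) b (A.1 K K) _ _ huni
  have c0 : ∀ p q, m ∣ A.1 p q - (1 : Matrix (Fin n) (Fin n) ℤ) p q := fun p q =>
    hmm.trans (hC p q)
  -- step 1
  obtain ⟨L1, hL1, eL1⟩ := exL m K S hKS (fun j => m * w j) (fun j _ => dvd_mul_right _ _)
  obtain ⟨B1, hB1⟩ : ∃ B1 : SLn n, B1 = A * L1 := ⟨_, rfl⟩
  have f1 : ∀ p q, B1.1 p q = A.1 p q + if q ∈ S then A.1 p K * (m * w q) else 0 := by
    intro p q
    rw [hB1]
    exact mulL eL1 A p q
  have c1 : ∀ p q, m ∣ B1.1 p q - (1 : Matrix (Fin n) (Fin n) ℤ) p q := by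
    intro p q
    rw [f1, add_sub_right_comm]
    refine dvd_add (c0 p q) ?_
    split_ifs
    · exact (dvd_mul_right m _).mul_left _
    · exact dvd_zero _
  have b1 : Blk (k + 1) B1 := by
    intro p q hpq
    rw [f1]
    rw [hB p q hpq]
    rcases hpq with h | h
    · rw [hB p K (Or.inl h), Matrix.one_apply_ne (hbK p h), zero_mul, ite_self, add_zero]
    · rw [if_neg (hbS q h), add_zero]
  -- step 2
  obtain ⟨U1, hU1, eU1⟩ := exU m K S hKS (fun j => m * (-z * s j)) (fun j _ => dvd_mul_right _ _)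
  obtain ⟨B2, hB2⟩ : ∃ B2 : SLn n, B2 = B1 * U1 := ⟨_, rfl⟩
  have f2 : ∀ p q, B2.1 p q = B1.1 p q +
      if q = K then ∑ l ∈ S, B1.1 p l * (m * (-z * s l)) else 0 := by
    intro p q
    rw [hB2]
    exact mulU eU1 B1 p q
  have c2 : ∀ p q, m ∣ B2.1 p q - (1 : Matrix (Fin n) (Fin n) ℤ) p q := by
    intro p q
    rw [f2, add_sub_right_comm]
    refine dvd_add (c1 p q) ?_
    split_ifs
    · exact Finset.dvd_sum (fun l _ => (dvd_mul_right m _).mul_left _)
    · exact dvd_zero _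
  have b2 : Blk (k + 1) B2 := by
    intro p q hpq
    rw [f2, b1 p q hpq]
    rcases hpq with h | h
    · rw [Finset.sum_eq_zero, ite_self, add_zero]
      intro l hl
      have hpl : p ≠ l := fun e => hbS p h (e ▸ hl)
      rw [b1 p l (Or.inl h), Matrix.one_apply_ne hpl, zero_mul]
    · rw [if_neg (hbK q h), add_zero]
  have k2 : B2.1 K K = 1 := by
    rw [f2, if_pos rfl, f1, if_neg hKS, add_zero]
    have h1 : ∑ l ∈ S, B1.1 K l * (m * (-z * s l)) = - (m ^ 2 * z) := by
      have h2 : ∀ l ∈ S, B1.1 K l * (m * (-z * s l)) =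
          - (m ^ 2 * z) * ((b l + A.1 K K * w l) * s l) := by
        intro l hl
        rw [f1, if_pos hl, hb l hl]
        ring
      rw [Finset.sum_congr rfl h2, ← Finset.mul_sum, hws, mul_one]
    rw [h1]
    linarith
  -- step 3
  have d2 : ∀ j ∈ S, m ∣ -(B2.1 K j) := by
    intro j hj
    have := c2 K j
    rw [Matrix.one_apply_ne (hne j hj), sub_zero] at this
    exact this.neg_right
  obtain ⟨L2, hL2, eL2⟩ := exL m K S hKS (fun j => -(B2.1 K j)) d2
  obtain ⟨B3, hB3⟩ : ∃ B3 : SLn n, B3 = B2 * L2 := ⟨_, rfl⟩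
  have f3 : ∀ p q, B3.1 p q = B2.1 p q + if q ∈ S then B2.1 p K * -(B2.1 K q) else 0 := by
    intro p q
    rw [hB3]
    exact mulL eL2 B2 p q
  have c3 : ∀ p q, m ∣ B3.1 p q - (1 : Matrix (Fin n) (Fin n) ℤ) p q := by
    intro p q
    rw [f3, add_sub_right_comm]
    refine dvd_add (c2 p q) ?_
    split_ifs with h
    · exact (d2 q h).mul_left _
    · exact dvd_zero _
  have b3 : Blk (k + 1) B3 := by
    intro p q hpq
    rw [f3, b2 p q hpq]
    rcases hpq with h | h
    · rw [b2 p K (Or.inl h), Matrix.one_apply_ne (hbK p h), zero_mul, ite_self, add_zero]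
    · rw [if_neg (hbS q h), add_zero]
  have k3 : ∀ q, B3.1 K q = (1 : Matrix (Fin n) (Fin n) ℤ) K q := by
    intro q
    by_cases hq : q ∈ S
    · rw [f3, if_pos hq, k2, Matrix.one_apply_ne (hne q hq)]
      ring
    · by_cases hqK : q = K
      · rw [f3, if_neg hq, add_zero, hqK, k2, Matrix.one_apply_eq]
      · exact b3 K q (Or.inr (hbig q hq hqK))
  -- step 4
  have d3 : ∀ i ∈ S, m ∣ -(B3.1 i K) := by
    intro i hi
    have := c3 i K
    rw [Matrix.one_apply_ne (hne i hi).symm, sub_zero] at this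
    exact this.neg_right
  obtain ⟨U2, hU2, eU2⟩ := exU m K S hKS (fun i => -(B3.1 i K)) d3
  obtain ⟨B4, hB4⟩ : ∃ B4 : SLn n, B4 = U2 * B3 := ⟨_, rfl⟩
  have f4 : ∀ p q, B4.1 p q = B3.1 p q + if p ∈ S then -(B3.1 p K) * B3.1 K q else 0 := by
    intro p q
    rw [hB4]
    exact Umul eU2 B3 p q
  have c4 : Cong m B4 := by
    intro p q
    rw [f4, add_sub_right_comm]
    refine dvd_add (c3 p q) ?_
    split_ifs with h
    · exact (d3 p h).mul_right _
    · exact dvd_zero _
  have b4 : Blk (k + 1) B4 := by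
    intro p q hpq
    rw [f4, b3 p q hpq]
    rcases hpq with h | h
    · rw [if_neg (hbS p h), add_zero]
    · rw [b3 K q (Or.inr h), Matrix.one_apply_ne (hbK q h).symm, mul_zero, ite_self, add_zero]
  have r4 : ∀ q, B4.1 K q = (1 : Matrix (Fin n) (Fin n) ℤ) K q := by
    intro q
    rw [f4, if_neg hKS, add_zero, k3]
  have s4 : ∀ p, B4.1 p K = (1 : Matrix (Fin n) (Fin n) ℤ) p K := by
    intro p
    by_cases hp : p ∈ S
    · rw [f4, if_pos hp, k3, Matrix.one_apply_eq, Matrix.one_apply_ne (hne p hp).symm]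
      ring
    · by_cases hpK : p = K
      · rw [hpK]
        exact r4 K
      · exact b4 p K (Or.inl (hbig p hp hpK))
  refine ⟨U2⁻¹, Subgroup.inv_mem _ hU2, (L1 * U1 * L2)⁻¹,
    Subgroup.inv_mem _ (Subgroup.mul_mem _ (Subgroup.mul_mem _ hL1 hU1) hL2), B4, ?_, c4, ?_⟩
  · intro p q hpq
    by_cases hp : p = K
    · rw [hp]
      exact r4 q
    · by_cases hq : q = K
      · rw [hq]
        exact s4 p
      · refine b4 p q ?_
        have e1 : (p : ℕ) ≠ k := fun e => hp (Fin.ext (by rw [e, hKv]))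
        have e2 : (q : ℕ) ≠ k := fun e => hq (Fin.ext (by rw [e, hKv]))
        omega
  · rw [hB4, hB3, hB2, hB1]
    group

end Pool.Agent.TH610.CSP.H674
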